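import Pool.Agent.X202.QC.Fin

/-!
# A Lipschitz quasiconformal map of the plane which increases an Assouad dimension

Proof outline (files `Pool/Agent/X202/QC/*`).

1. `Rad`, `Pro`: the radial maps `g` (expanding, `g z = 4 z / 3` for `|z| ≤ 1/4`) and `c`
   (`c z = δ² z` for `|z| ≤ δ`, `c z = |z|² z` for `δ ≤ |z| ≤ 1`), both the identity off the unit
   disc, quasiconformal with constant `5` and Lipschitz with constant `3` independently of `δ`.
2. `Ins`: `G (m+1)` is obtained by inserting `g` in the two discs `|z ∓ 1/2| < 1/2` and `G m` in the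
   two discs `|z ∓ 1/2| < 1/8`, where `g` is a similarity. So all `G m` have the quasiconformality
   constant `5`, and `G m` maps the `2^m` points `∑ ± 8^{-i} / 2` onto the points `∑ ± 6^{-i} / 2`
   (`Pts`), but its Lipschitz constant is unbounded as `m` grows.
3. `Glue`: the map `c` with a copy of `G m` in the disc `|z| < δ` is Lipschitz with constant `5` if
   `δ` is small. Put such maps (`m = 0, 1, 2, ...`) into far away discs.
4. `Dig`: the points can be placed such that all their base `8` digits are `0` or `1`, so the set `E`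
   of all of them has Assouad dimension at most `log 2 / log 8 = 1 / 3`, while the image contains
   scaled copies of `∑ ± 6^{-i} / 2` (`i < m`) for all `m` and has dimension at least
   `log 2 / log 6 > 3 / 8` (`Fin`). `Weak`: Lipschitz maps have weak derivatives.
-/

set_option autoImplicit false

open MeasureTheory Filter Topology Metric
open scoped ContDiff

namespace Pool.Agent.Results.MP_c78a2a_an.LipschitzQuasiconformal

/-- `A` can be covered by `N` sets of diameter at most `r`. -/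
def Covers (A : Set ℂ) (r : ℝ) (N : ℕ) : Prop :=
  ∃ t : Fin N → Set ℂ, (∀ i, Metric.ediam (t i) ≤ ENNReal.ofReal r) ∧ A ⊆ ⋃ i, t i

/-- The Assouad dimension of a subset of the plane, as an element of `[0, ∞]`. -/
noncomputable def dimA (E : Set ℂ) : ENNReal :=
  sInf {a | ∃ α : ℝ, 0 ≤ α ∧ a = ENNReal.ofReal α ∧ ∃ C : ℝ, 0 < C ∧
    ∀ x ∈ E, ∀ r R : ℝ, 0 < r → r < R →
      ∃ N : ℕ, (N : ℝ) ≤ C * (R / r) ^ α ∧ Covers (E ∩ ball x R) r N}

/-- `D` is the weak (distributional) derivative of `f`. -/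
def IsWeakDeriv (f : ℂ → ℂ) (D : ℂ → ℂ →L[ℝ] ℂ) : Prop :=
  ∀ φ : ℂ → ℝ, ContDiff ℝ ∞ φ → HasCompactSupport φ → ∀ v : ℂ,
    ∫ z, (fderiv ℝ φ z v) • f z = - ∫ z, φ z • D z v

/-- Quasiconformal homeomorphisms of the plane (analytic definition): the map has a weak derivative
`D`, both are locally square integrable, and `‖D‖² ≤ K det D` almost everywhere. -/
def IsQuasiconformal (f : ℂ ≃ₜ ℂ) : Prop :=
  ∃ D : ℂ → ℂ →L[ℝ] ℂ, IsWeakDeriv f D ∧
    (∀ S : Set ℂ, IsCompact S → MemLp f 2 (volume.restrict S) ∧ MemLp D 2 (volume.restrict S)) ∧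
    ∃ K : ℝ, 1 ≤ K ∧ ∀ᵐ z, ‖D z‖ ^ 2 ≤ K * (D z).det

theorem result :
    ∃ (f : ℂ ≃ₜ ℂ) (E : Set ℂ), IsQuasiconformal f ∧ (∃ L, LipschitzWith L f) ∧
      dimA E ≤ ENNReal.ofReal (1 / 3) ∧ ENNReal.ofReal (3 / 8) ≤ dimA (f '' E) ∧
      dimA E < dimA (f '' E) := by
  obtain ⟨f, E, h1, h2, h3, h4⟩ := Pool.Agent.X202.QC.main
  have a1 : dimA E ≤ ENNReal.ofReal (1 / 3) :=
    sInf_le ⟨1 / 3, by norm_num, rfl, 8, by norm_num, h3⟩
  have a2 : ENNReal.ofReal (3 / 8) ≤ dimA (f '' E) := by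
    apply le_sInf
    rintro a ⟨α, _, rfl, C, hC, h⟩
    exact ENNReal.ofReal_le_ofReal (h4 α C hC h)
  refine ⟨f, E, ⟨fderiv ℝ f, ?_, ?_, 5, by norm_num, ?_⟩, ⟨13, h1⟩, a1, a2, ?_⟩
  · intro φ hφ hc v
    exact Pool.Agent.X202.QC.weak_complex h1 hφ hc v
  · exact fun S hS => Pool.Agent.X202.QC.memLp_lip h1 hS
  · filter_upwards [h2] with z hz
    exact hz.fderiv
  · refine lt_of_le_of_lt a1 (lt_of_lt_of_le ?_ a2)
    rw [ENNReal.ofReal_lt_ofReal_iff (by norm_num)]
    norm_num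

end Pool.Agent.Results.MP_c78a2a_an.LipschitzQuasiconformal
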